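import Pool.Agent.Y242.IM.Stm

/-!
The half-plane map (task C of the project IM).
-/

set_option autoImplicit false

open Set Filter Topology Complex Metric

namespace Pool.Agent.Y458.IM

open Y242.IM

theorem ne_one {z : ℂ} (hz : ‖z‖ < 1) : 1 - z ≠ 0 := by
  intro h
  have h1 : z = 1 := (sub_eq_zero.mp h).symm
  rw [h1, norm_one] at hz
  exact lt_irrefl _ hz

theorem hasDeriv {z : ℂ} (hz : ‖z‖ < 1) :
    HasDerivAt (fun z : ℂ => z / (1 - z)) (1 / (1 - z) ^ 2) z := by
  have h1 : HasDerivAt (fun z : ℂ => 1 - z) (-1) z := by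
    simpa using (hasDerivAt_id z).const_sub 1
  have h2 := (hasDerivAt_id z).div h1 (ne_one hz)
  refine h2.congr_deriv ?_
  simp only [id]
  congr 1
  ring

theorem image_eq : (fun z : ℂ => z / (1 - z)) '' ball 0 1 = {w : ℂ | -(1 / 2 : ℝ) < w.re} := by
  ext w
  constructor
  · rintro ⟨z, hz, rfl⟩
    rw [mem_ball_zero_iff] at hz
    have hne := ne_one hz
    have hn : 0 < Complex.normSq (1 - z) := Complex.normSq_pos.mpr hne
    have h1 : Complex.normSq z < 1 := by
      rw [Complex.normSq_eq_norm_sq]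
      nlinarith [norm_nonneg z]
    simp only [mem_ofPred_eq]
    rw [Complex.div_re, ← add_div, lt_div_iff₀ hn]
    rw [Complex.normSq_apply] at h1 ⊢
    simp only [Complex.sub_re, Complex.sub_im, Complex.one_re, Complex.one_im]
    nlinarith
  · intro hw
    simp only [mem_ofPred_eq] at hw
    have hne : 1 + w ≠ 0 := by
      intro h
      have := congrArg Complex.re h
      simp only [Complex.add_re, Complex.one_re, Complex.zero_re] at this
      linarith
    refine ⟨w / (1 + w), ?_, ?_⟩
    · rw [mem_ball_zero_iff, norm_div, div_lt_one (norm_pos_iff.mpr hne)]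
      have h1 : ‖w‖ ^ 2 < ‖1 + w‖ ^ 2 := by
        rw [← Complex.normSq_eq_norm_sq, ← Complex.normSq_eq_norm_sq, Complex.normSq_apply,
          Complex.normSq_apply]
        simp only [Complex.add_re, Complex.add_im, Complex.one_re, Complex.one_im]
        nlinarith
      exact lt_of_pow_lt_pow_left₀ 2 (norm_nonneg _) h1
    · have h2 : 1 - w / (1 + w) = 1 / (1 + w) := by
        field_simp
        ring
      simp only
      rw [h2]
      field_simp

theorem Sc_f : Sc (fun z => z / (1 - z)) := by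
  refine ⟨?_, ?_, by simp, ?_, ?_⟩
  · intro z hz
    rw [mem_ball_zero_iff] at hz
    exact (hasDeriv hz).differentiableAt.differentiableWithinAt
  · intro z hz w hw h
    rw [mem_ball_zero_iff] at hz hw
    have h1 := ne_one hz
    have h2 := ne_one hw
    simp only at h
    rw [div_eq_div_iff h1 h2] at h
    linear_combination h
  · rw [(hasDeriv (by simp : ‖(0 : ℂ)‖ < 1)).deriv]
    simp
  · rw [image_eq]
    exact convex_halfSpace_re_gt _

theorem mean_eq {r : ℝ} (hr0 : 0 ≤ r) (hr : r < 1) :
    mean (fun z => z / (1 - z)) r = 1 + r ^ 2 := by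
  unfold mean
  have h1 : ∀ θ : ℝ, ‖(deriv (fun z : ℂ => z / (1 - z)) (r * exp (θ * I)))⁻¹‖ =
      1 + r ^ 2 - 2 * r * Real.cos θ := by
    intro θ
    have hn : ‖(r : ℂ) * exp (θ * I)‖ < 1 := by
      rw [norm_mul, Complex.norm_exp_ofReal_mul_I, mul_one, Complex.norm_real,
        Real.norm_of_nonneg hr0]
      exact hr
    rw [(hasDeriv hn).deriv, one_div, inv_inv, norm_pow, ← Complex.normSq_eq_norm_sq,
      Complex.normSq_apply]
    simp only [Complex.sub_re, Complex.sub_im, Complex.one_re, Complex.one_im, Complex.re_ofReal_mul,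
      Complex.im_ofReal_mul, Complex.exp_ofReal_mul_I_re, Complex.exp_ofReal_mul_I_im]
    nlinarith [Real.sin_sq_add_cos_sq θ]
  simp only [h1]
  rw [intervalIntegral.integral_sub (Continuous.intervalIntegrable (by fun_prop) _ _)
    (Continuous.intervalIntegrable (by fun_prop) _ _)]
  rw [intervalIntegral.integral_const, intervalIntegral.integral_const_mul, integral_cos]
  simp only [Real.sin_two_pi, Real.sin_zero, sub_self, mul_zero, sub_zero, smul_eq_mul]
  field_simp

theorem t : S_C := by
  refine ⟨Sc_f, ?_, ?_⟩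
  · have h1 : Tendsto (fun r : ℝ => 1 + r ^ 2) (𝓝[<] 1) (𝓝 2) := by
      have h2 : Continuous (fun r : ℝ => 1 + r ^ 2) := by fun_prop
      have h3 := h2.tendsto 1
      norm_num at h3
      exact h3.mono_left nhdsWithin_le_nhds
    refine h1.congr' ?_
    have h4 : ∀ᶠ r : ℝ in 𝓝[<] 1, r ∈ Ioo (0 : ℝ) 1 := Ioo_mem_nhdsLT one_pos
    filter_upwards [h4] with r hr
    exact (mean_eq hr.1.le hr.2).symm
  · have hval : ∀ z : ℂ, z ∈ ball (0 : ℂ) 1 → z ≠ 0 → ‖z / (z / (1 - z))‖ = ‖1 - z‖ := by
      intro z hz h0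
      rw [mem_ball_zero_iff] at hz
      have := ne_one hz
      congr 1
      field_simp
    constructor
    · rintro x ⟨z, hz, h0, rfl⟩
      rw [hval z hz h0]
      rw [mem_ball_zero_iff] at hz
      calc ‖1 - z‖ ≤ ‖(1 : ℂ)‖ + ‖z‖ := norm_sub_le _ _
        _ ≤ 2 := by rw [norm_one]; linarith
    · intro B hB
      by_contra hcon
      push Not at hcon
      set s : ℝ := max (1 / 2) ((B - 1 + 1) / 2) with hs
      have hs1 : s < 1 := max_lt (by norm_num) (by linarith)
      have hs0 : 0 < s := lt_of_lt_of_le (by norm_num) (le_max_left _ _)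
      have hmem : ((-s : ℝ) : ℂ) ∈ ball (0 : ℂ) 1 := by
        rw [mem_ball_zero_iff, Complex.norm_real, norm_neg, Real.norm_of_nonneg hs0.le]
        exact hs1
      have hne : ((-s : ℝ) : ℂ) ≠ 0 := by
        rw [Ne, Complex.ofReal_eq_zero]
        linarith
      have h1 := hB ⟨_, hmem, hne, rfl⟩
      rw [hval _ hmem hne] at h1
      have h2 : (1 : ℂ) - ((-s : ℝ) : ℂ) = ((1 + s : ℝ) : ℂ) := by
        push_cast; ring
      rw [h2, Complex.norm_real, Real.norm_of_nonneg (by linarith)] at h1
      have h3 : (B - 1 + 1) / 2 ≤ s := le_max_right _ _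
      linarith

end Pool.Agent.Y458.IM
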